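import Pool.Agent.Y162.FD.Tens

/-!
# The density of the ordinary primes for intersection cohomology built from small motives

`K` is a number field, `X` a projective variety over `K`, and the `V j` are intersection cohomology groups
of `X` (all of them, or those of all powers of `X`: `J` may be infinite) with their `ℓ'`-adic realisations
for all `ℓ'`.  The `A i` (`i` in a finite set) are pure motives over `K` whose Hodge defects
`w k - 2 (h_1 + ... + h_k)` at the vertices `k` of the Hodge polygon are at most two: transcendental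
parts of the cohomology in degree two of K3 surfaces, of surfaces with `p_g = 1` and of hyperkähler
varieties, cubic fourfolds, `H¹` of elliptic curves and abelian surfaces, Tate motives, and all twists of
these.

The hypothesis is that over *some finite extension* of `K` (which may depend on `j`) the `V j` are tensor
factors of direct summands of polynomial tensor constructions on the `A i` (`BuiltFrom`).  This is the case
for products of K3 surfaces, abelian surfaces, curves of genus at most two, Hilbert schemes of points on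
K3 and abelian surfaces, Kummer and K3-type hyperkähler varieties, quotients of all these by finite groups
and all their twisted forms.

Theorem. No extension of `K` and no connectedness of monodromy groups is needed for the conclusion: there
are a finite Galois extension of `K` and a set `C` of conjugacy classes of its group, containing the
identity, such that the primes with Frobenius classes in `C` at which some `V j` is not ordinary have
density zero.  If conversely the `A i` are built from the `V j` (for instance if they are summands of some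
of them), then the set of primes at which all the `V j` are ordinary is equal to this Frobenian set up to
density zero: it has a natural density, which is a positive rational number.
-/

set_option autoImplicit false

namespace Pool.Agent.Results.MP_db07cb_ag.FrobenianTensors

open NumberField IsDedekindDomain Polynomial Filter Topology
open Pool.Agent.W401.Cheb Pool.Agent.W528.Ord Pool.Agent.Y161.Ord Pool.Agent.Y162.FD
open Pool.Agent.W528.Ord.MultSystem (IsDeg1)

/-- A pure motive over `K` with small Hodge defects, at the places of degree one outside `S`: `w` is the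
weight, `h` the list of the Hodge slopes, `ρ` the dual of the `ℓ`-adic realisation, `P v` the
characteristic polynomial of the geometric Frobenius element at `v`. -/
structure SmallMotive (K : Type) [Field K] [NumberField K] (ℓ : ℕ) [Fact ℓ.Prime] (S : Finset ℕ) where
  w : ℕ
  n : ℕ
  h : List ℕ
  ρ : GK K →* Matrix.GeneralLinearGroup (Fin n) (PadicAlgCl ℓ)
  P : HeightOneSpectrum (𝓞 K) → ℤ[X]
  cont : ∀ i j, Continuous fun g : GK K => (ρ g : Matrix (Fin n) (Fin n) (PadicAlgCl ℓ)) i j
  monic : ∀ v, IsDeg1 S v → (P v).Monic ∧ (P v).natDegree = n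
  frob : ∀ v, IsDeg1 S v → ∀ γ : GK K, IsFrob v γ →
    (ρ γ : Matrix (Fin n) (Fin n) (PadicAlgCl ℓ)).charpoly = (P v).map (Int.castRingHom (PadicAlgCl ℓ))
  weil : ∀ v, IsDeg1 S v → ∀ α : ℂ, ((P v).map (Int.castRingHom ℂ)).IsRoot α →
    ‖α‖ ^ 2 = (Ideal.absNorm v.asIdeal : ℝ) ^ w
  mazur : ∀ v, IsDeg1 S v → ∀ k ≤ n, (Ideal.absNorm v.asIdeal : ℤ) ^ (h.take k).sum ∣ (P v).coeff (n - k)
  sorted : h.Pairwise (· ≤ ·)
  length : h.length = n
  symm : 2 * h.sum = w * n
  small : ∀ k, 0 < k → k < n → h.getD (k - 1) 0 < h.getD k 0 → w * k ≤ 2 * (h.take k).sum + 2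
  nonScalar : (∃ k, 0 < k ∧ k < n ∧ h.getD (k - 1) 0 < h.getD k 0) →
    ∀ U : Subgroup (GK K), IsOpen (U : Set (GK K)) → ∃ v, IsDeg1 S v ∧ (∃ σ ∈ U, IsFrob v σ) ∧
      ∀ α : ℂ, (P v).map (Int.castRingHom ℂ) ≠ (X - C α) ^ n

/-- The `ℓ'`-adic realisations, for all `ℓ'`, of an intersection cohomology group: `H` is the multiset of
the Hodge-Tate weights and `F v` the characteristic polynomial of the geometric Frobenius element (the
inverse of `γ`), whose Newton polygon lies on or above the Hodge polygon. -/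
structure CohomologySystem (K : Type) [Field K] [NumberField K] (S : Finset ℕ) where
  r : ℕ
  H : Multiset ℕ
  F : HeightOneSpectrum (𝓞 K) → ℤ[X]
  rep : ∀ (ℓ' : ℕ) [Fact ℓ'.Prime], GK K →* Matrix.GeneralLinearGroup (Fin r) ℚ_[ℓ']
  compat : ∀ (ℓ' : ℕ) [Fact ℓ'.Prime] (v : HeightOneSpectrum (𝓞 K)), IsDeg1 S v →
    Ideal.absNorm v.asIdeal ≠ ℓ' → ∀ γ : GK K, IsFrob v γ →
      (rep ℓ' γ⁻¹ : Matrix (Fin r) (Fin r) ℚ_[ℓ']).charpoly = (F v).map (Int.castRingHom ℚ_[ℓ'])
  above : ∀ v, IsDeg1 S v → AboveHodge (Ideal.absNorm v.asIdeal) (F v) H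

/-- For every prime `ℓ'` different from the residue characteristic `p = N v` and every embedding `τ` of
the field of algebraic numbers the Newton polygon of `V` at `v` is the Hodge-Tate polygon. -/
def CohomologySystem.Ordinary {K : Type} [Field K] [NumberField K] {S : Finset ℕ}
    (V : CohomologySystem K S) (v : HeightOneSpectrum (𝓞 K)) : Prop :=
  ∃ (p : ℕ) (_ : Fact p.Prime), Ideal.absNorm v.asIdeal = p ∧
    ∀ (ℓ' : ℕ) [Fact ℓ'.Prime], p ≠ ℓ' → ∀ γ : GK K, IsFrob v γ →
      ∀ τ : algebraicClosure ℚ (PadicAlgCl ℓ') →+* PadicAlgCl p,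
        NewtonTau (V.rep ℓ' γ⁻¹ : Matrix (Fin V.r) (Fin V.r) ℚ_[ℓ']) τ V.H

/-- The system with Frobenius polynomials `F v` and slopes `H` is, over a finite extension of `K`, a tensor
factor of a direct summand of the tensor construction `Φ` on the systems `(P i, h i)`: there is a
polynomial `Φ` with coefficients in the natural numbers and for all `v` of degree one outside `S` there are
an exponent `f > 0` (the residue degree of a place `v'` above `v`) and Frobenius polynomials `FB ≠ 1`, `FC`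
at `v'` with Newton polygons on or above the Hodge polygons with slopes `HB`, `HC`, such that
`F ⊗ B ⊕ C` and `Φ(P)` have the same Frobenius eigenvalues at `v'` (for `F` and the `P i` these are the
`f`-th powers of the eigenvalues at `v`) and the same Hodge polygon. -/
def BuiltFrom {K : Type} [Field K] [NumberField K] (S : Finset ℕ) {ι : Type}
    (P : ι → HeightOneSpectrum (𝓞 K) → ℤ[X]) (h : ι → Multiset ℕ)
    (F : HeightOneSpectrum (𝓞 K) → ℤ[X]) (H : Multiset ℕ) : Prop :=
  ∃ (Φ : MvPolynomial ι ℕ) (HB HC : Multiset ℕ), HB ≠ 0 ∧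
    hodge H * hodge HB + hodge HC = MvPolynomial.eval₂ (Nat.castRingHom _) (fun i => hodge (h i)) Φ ∧
    ∀ v, IsDeg1 S v → ∃ (f : ℕ) (FB FC : ℤ[X]), 0 < f ∧
      AboveHodge (Ideal.absNorm v.asIdeal ^ f) FB HB ∧ AboveHodge (Ideal.absNorm v.asIdeal ^ f) FC HC ∧
      pw f (eigen ((F v).map (Int.castRingHom (AlgebraicClosure ℚ)))) *
          eigen (FB.map (Int.castRingHom (AlgebraicClosure ℚ))) +
          eigen (FC.map (Int.castRingHom (AlgebraicClosure ℚ))) =
        MvPolynomial.eval₂ (Nat.castRingHom _)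
          (fun i => pw f (eigen ((P i v).map (Int.castRingHom (AlgebraicClosure ℚ))))) Φ

section aux

variable {K : Type} [Field K] [NumberField K] {S : Finset ℕ}

theorem newton_of_built {ι : Type} {P : ι → HeightOneSpectrum (𝓞 K) → ℤ[X]} {h : ι → Multiset ℕ}
    {F : HeightOneSpectrum (𝓞 K) → ℤ[X]} {H : Multiset ℕ} (hb : BuiltFrom S P h F H)
    {v : HeightOneSpectrum (𝓞 K)} (hv : IsDeg1 S v)
    (hF : AboveHodge (Ideal.absNorm v.asIdeal) (F v) H)
    (hP : ∀ i, NewtonSlopes (Ideal.absNorm v.asIdeal) (P i v) (h i)) :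
    NewtonSlopes (Ideal.absNorm v.asIdeal) (F v) H := by
  obtain ⟨Φ, HB, HC, hB0, hH, hall⟩ := hb
  obtain ⟨f, FB, FC, hf, hFB, hFC, hrel⟩ := hall v hv
  obtain ⟨p, hpe⟩ : ∃ p, Ideal.absNorm v.asIdeal = p := ⟨_, rfl⟩
  have hpp : p.Prime := hpe ▸ hv.1
  have : Fact p.Prime := ⟨hpp⟩
  rw [hpe] at hF hP hFB hFC ⊢
  refine ⟨this, ?_⟩
  have key := transfer (p := p) (fun i => P i v) h (fun i => by
    obtain ⟨_, h1⟩ := hP i
    exact h1) (F v) FB FC H HB HC hF f hf hFB hFC hB0 Φ hrel hH
  exact key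

theorem ordinary_iff (V : CohomologySystem K S) {v : HeightOneSpectrum (𝓞 K)} (hv : IsDeg1 S v) :
    V.Ordinary v ↔ NewtonSlopes (Ideal.absNorm v.asIdeal) (V.F v) V.H := by
  constructor
  · rintro ⟨p, hp, hpe, h⟩
    obtain ⟨ℓ', hℓ', hne⟩ : ∃ ℓ' : ℕ, ℓ'.Prime ∧ p ≠ ℓ' := by
      by_cases h2 : p = 2
      · exact ⟨3, Nat.prime_three, by omega⟩
      · exact ⟨2, Nat.prime_two, h2⟩
    have : Fact ℓ'.Prime := ⟨hℓ'⟩
    obtain ⟨γ, hγ⟩ := exists_isFrob v
    obtain ⟨τ⟩ := exists_embedding ℓ' p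
    rw [hpe]
    exact newtonSlopes_of _ τ _ (V.F v) (V.compat ℓ' v hv (by rw [hpe]; exact hne) γ hγ) (h ℓ' hne γ hγ τ)
  · intro hN
    have hp : Fact (Ideal.absNorm v.asIdeal).Prime := ⟨hv.1⟩
    exact ⟨_, hp, rfl, fun ℓ' _ hne γ hγ τ => newtonTau_of _ τ _ (V.F v) (V.compat ℓ' v hv hne γ hγ) hN⟩

variable {ℓ : ℕ} [Fact ℓ.Prime]

/-- the system of the library -/
def SmallMotive.sys (A : SmallMotive K ℓ S) : IntSystem K ℓ := ⟨A.w, A.n, A.h, A.ρ, A.P⟩

theorem SmallMotive.isSmall (A : SmallMotive K ℓ S) {χ : GK K →* (PadicAlgCl ℓ)ˣ}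
    (hχ : Continuous fun g : GK K => (χ g : PadicAlgCl ℓ))
    (hχv : ∀ v, IsDeg1 S v → ∀ γ : GK K, IsFrob v γ →
      (χ γ : PadicAlgCl ℓ) = (Ideal.absNorm v.asIdeal : PadicAlgCl ℓ)) :
    IsSmallMotive A.sys χ S where
  monic := A.monic
  cont := ⟨A.cont, hχ⟩
  compat := fun v hv γ hγ => ⟨hχv v hv γ hγ, A.frob v hv γ hγ⟩
  weil := A.weil
  small := fun k hk => A.small k hk.1 hk.2.1 hk.2.2
  nonScalar := A.nonScalar
  hodge := ⟨A.sorted, A.length, A.symm⟩
  mazur := A.mazur

theorem SmallMotive.above (A : SmallMotive K ℓ S) {χ : GK K →* (PadicAlgCl ℓ)ˣ}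
    (hA : IsSmallMotive A.sys χ S) {v : HeightOneSpectrum (𝓞 K)} (hv : IsDeg1 S v) :
    AboveHodge (Ideal.absNorm v.asIdeal) (A.P v) (A.h : Multiset ℕ) := by
  have hs : ((A.h : Multiset ℕ)).sort (· ≤ ·) = A.h := by
    rw [Multiset.coe_sort]
    exact List.mergeSort_of_pairwise (by simpa using A.sorted)
  refine ⟨(A.monic v hv).1, ?_, ?_, ?_⟩
  · rw [Multiset.coe_card, A.length, (A.monic v hv).2]
  · intro h0
    have h1 := abs_coeff_zero hA hv
    have h2 : (A.sys.P v).coeff 0 = 0 := h0
    rw [h2, abs_zero] at h1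
    have h3 : (0 : ℤ) < (Ideal.absNorm v.asIdeal : ℤ) ^ A.sys.h.sum := by
      have : (0 : ℤ) < (Ideal.absNorm v.asIdeal : ℤ) := by exact_mod_cast hv.1.pos
      positivity
    omega
  · intro k hk
    rw [hs, Multiset.coe_card, A.length]
    rw [Multiset.coe_card, A.length] at hk
    exact A.mazur v hv k hk

end aux

theorem result (K : Type) [Field K] [NumberField K] (ℓ : ℕ) [Fact ℓ.Prime] (S : Finset ℕ)
    -- the cyclotomic character
    (χ : GK K →* (PadicAlgCl ℓ)ˣ) (hχ : Continuous fun g : GK K => (χ g : PadicAlgCl ℓ))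
    (hχv : ∀ v, IsDeg1 S v → ∀ γ : GK K, IsFrob v γ →
      (χ γ : PadicAlgCl ℓ) = (Ideal.absNorm v.asIdeal : PadicAlgCl ℓ))
    -- the small motives and the intersection cohomology groups
    {ι : Type} [Finite ι] (A : ι → SmallMotive K ℓ S) {J : Type} (V : J → CohomologySystem K S)
    (hV : ∀ j, BuiltFrom S (fun i => (A i).P) (fun i => ((A i).h : Multiset ℕ)) (V j).F (V j).H) :
    ∃ (U : Subgroup (GK K)) (C : Set (GK K)), U.Normal ∧ IsOpen (U : Set (GK K)) ∧
      (U : Set (GK K)) ⊆ C ∧ (∀ σ ∈ C, ∀ τ, τ * σ * τ⁻¹ ∈ C) ∧ (∀ σ ∈ C, ∀ u ∈ U, σ * u ∈ C) ∧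
      0 < (((QuotientGroup.mk : GK K → GK K ⧸ U) '' C).ncard : ℝ) / (U.index : ℝ) ∧
      -- the non-ordinary places with Frobenius elements in `C` have density zero
      Tendsto (ratio fun v : HeightOneSpectrum (𝓞 K) => (∃ σ ∈ C, IsFrob v σ) ∧
        ¬ (IsDeg1 S v ∧ ∀ j, (V j).Ordinary v)) atTop (𝓝 0) ∧
      -- if the small motives are built from the cohomology groups
      ((∀ i, BuiltFrom S (fun j => (V j).F) (fun j => (V j).H) (A i).P ((A i).h : Multiset ℕ)) →
        -- then the Frobenius elements at the ordinary places are in `C`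
        (∀ v, IsDeg1 S v → (∀ j, (V j).Ordinary v) → ∀ σ, IsFrob v σ → σ ∈ C) ∧
        -- and the natural density of the ordinary places is the positive rational number above
        Tendsto (ratio fun v : HeightOneSpectrum (𝓞 K) => IsDeg1 S v ∧ ∀ j, (V j).Ordinary v) atTop
          (𝓝 ((((QuotientGroup.mk : GK K → GK K ⧸ U) '' C).ncard : ℝ) / (U.index : ℝ)))) := by
  have hA : ∀ i, IsSmallMotive (A i).sys χ S := fun i => (A i).isSmall hχ hχv
  obtain ⟨U, C, hU, hUo, hUC, hconj, hinv, h1, h2⟩ :=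
    frobenian (fun i => (A i).sys) χ S fun i => (hA i).toIsIntSystem
  have hfin : Finite (GK K ⧸ U) := Subgroup.quotient_finite_of_isOpen _ hUo
  have e1 : ∀ v, IsDeg1 S v → (∀ i, (A i).sys.Ordinary v) → ∀ j, (V j).Ordinary v := by
    intro v hv h j
    rw [ordinary_iff (V j) hv]
    exact newton_of_built (hV j) hv ((V j).above v hv) fun i => (newton_ordinary (hA i) hv).mpr (h i)
  have h2' : Tendsto (dens fun v : HeightOneSpectrum (𝓞 K) => (∃ σ ∈ C, IsFrob v σ) ∧
        ¬ (IsDeg1 S v ∧ ∀ j, (V j).Ordinary v)) atTop (𝓝 0) := by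
    refine squeeze_zero (fun N => dens_nonneg _ _) (fun N => dens_mono ?_ N) h2
    rintro v ⟨h3, h4⟩
    exact ⟨h3, fun h5 => h4 ⟨h5.1, e1 v h5.1 h5.2⟩⟩
  refine ⟨U, C, hU, hUo, hUC, hconj, hinv, ?_, ratio_tendsto _ _ h2', ?_⟩
  · apply div_pos
    · have : 0 < ((QuotientGroup.mk : GK K → GK K ⧸ U) '' C).ncard :=
        (Set.ncard_pos (Set.toFinite _)).mpr ⟨_, 1, hUC U.one_mem, rfl⟩
      exact_mod_cast this
    · have : 0 < U.index := Nat.card_pos
      exact_mod_cast this
  · intro hback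
    have h3 : ∀ v, IsDeg1 S v → (∀ j, (V j).Ordinary v) → ∀ σ, IsFrob v σ → σ ∈ C := by
      intro v hv hall σ hσ
      refine h1 v hv (fun i => ?_) σ hσ
      rw [← newton_ordinary (hA i) hv]
      exact newton_of_built (hback i) hv ((A i).above (hA i) hv) fun j => (ordinary_iff (V j) hv).mp (hall j)
    refine ⟨h3, density_of _ U hUo C hconj hinv (fun v hv => ?_) h2'⟩
    obtain ⟨σ, hσ⟩ := exists_isFrob v
    exact ⟨σ, h3 v hv.1 hv.2 σ hσ, hσ⟩

end Pool.Agent.Results.MP_db07cb_ag.FrobenianTensors
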