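import Pool.Agent.Y161.Ord.Density

/-!
# Ordinary primes for intersection cohomology: tensor factors of summands of tensor constructions

`K₀` is a number field, `X` a projective variety over `K₀`, and the `V j` are intersection cohomology
groups of `X` (for instance all of them), with their Galois action, Frobenius polynomials and Hodge-Tate
weights.  Over a finite extension `K` of `K₀` there are pure motives `A i` with multiplication by totally
real or CM fields `(A i).E`; `(A i).poly v σ` is the `σ`-part of the Frobenius polynomial at `v`, and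
`(A i).h σ` are the Hodge slopes of the `σ`-part.

Let `Φ j` be a polynomial with natural number coefficients in the classes of the `σ`-parts of the `A i`
(so `Φ j` is a direct sum of tensor products of these parts).  If `V j ⊗ B j ⊕ C j` and `Φ j` have the same
Frobenius eigenvalues and the same Hodge polynomial, with `B j ≠ 0`, and if some element of the Galois
group of `K` satisfies the orbit condition for all `A i`, then the primes of `K₀` at which all the `V j`
are ordinary have positive lower density.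
-/

set_option autoImplicit false

namespace Pool.Agent.Results.MP_db07cb_ag.TensorFactors

open NumberField IsDedekindDomain Polynomial
open Pool.Agent.W401.Cheb Pool.Agent.W528.Ord Pool.Agent.Y161.Ord

/-- Frobenius polynomials over the integers and Hodge slopes of a motive over `K`: at the places of degree
one outside `S` the Newton polygon lies on or above the Hodge polygon. -/
structure FrobeniusSystem (K : Type) [Field K] [NumberField K] (S : Finset ℕ) where
  frob : HeightOneSpectrum (𝓞 K) → ℤ[X]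
  slopes : Multiset ℕ
  above : ∀ v : HeightOneSpectrum (𝓞 K), MultSystem.IsDeg1 S v →
    AboveHodge (Ideal.absNorm v.asIdeal) (frob v) slopes

/-- The `ℓ'`-adic realisations, for all primes `ℓ'`, of a motive over `K₀`: the characteristic polynomial of
the geometric Frobenius element at `v₀` (the inverse of `γ`) does not depend on `ℓ'`. -/
structure StrictSystem (K₀ : Type) [Field K₀] [NumberField K₀] (S : Finset ℕ) extends
    FrobeniusSystem K₀ S where
  rank : ℕ
  rep : ∀ (ℓ' : ℕ) [Fact ℓ'.Prime], GK K₀ →* Matrix.GeneralLinearGroup (Fin rank) ℚ_[ℓ']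
  compat : ∀ (ℓ' : ℕ) [Fact ℓ'.Prime] (v₀ : HeightOneSpectrum (𝓞 K₀)), MultSystem.IsDeg1 S v₀ →
    Ideal.absNorm v₀.asIdeal ≠ ℓ' → ∀ γ : GK K₀, IsFrob v₀ γ →
      (rep ℓ' γ⁻¹ : Matrix (Fin rank) (Fin rank) ℚ_[ℓ']).charpoly = (frob v₀).map (Int.castRingHom ℚ_[ℓ'])

/-- For every prime `ℓ'` different from the residue characteristic `p = N v₀` and every embedding `τ` of
the field of algebraic numbers the Newton polygon of `V` at `v₀` is the Hodge-Tate polygon. -/
def StrictSystem.Ordinary {K₀ : Type} [Field K₀] [NumberField K₀] {S : Finset ℕ}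
    (V : StrictSystem K₀ S) (v₀ : HeightOneSpectrum (𝓞 K₀)) : Prop :=
  ∃ (p : ℕ) (_ : Fact p.Prime), Ideal.absNorm v₀.asIdeal = p ∧
    ∀ (ℓ' : ℕ) [Fact ℓ'.Prime], p ≠ ℓ' → ∀ γ : GK K₀, IsFrob v₀ γ →
      ∀ τ : algebraicClosure ℚ (PadicAlgCl ℓ') →+* PadicAlgCl p,
        NewtonTau (V.rep ℓ' γ⁻¹ : Matrix (Fin V.rank) (Fin V.rank) ℚ_[ℓ']) τ V.slopes

theorem result (K₀ K : Type) [Field K₀] [NumberField K₀] [Field K] [NumberField K] [Algebra K₀ K]
    (ℓ : ℕ) [Fact ℓ.Prime] {ι : Type} [Fintype ι] (A : ι → MotSystem K ℓ)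
    (χ : GK K →* (PadicAlgCl ℓ)ˣ) (S : Finset ℕ) (hA : ∀ i, (A i).IsMotive χ S)
    (hγ : ∃ γ : GK K, ∀ i, (A i).Admissible γ)
    {J : Type} (V : J → StrictSystem K₀ S) (B C : J → FrobeniusSystem K S)
    (hB : ∀ j, (B j).slopes ≠ 0) (Φ : J → MvPolynomial (Σ i, (A i).E →+* AlgebraicClosure K) ℕ)
    (hfrob : ∀ (j : J) (v₀ : HeightOneSpectrum (𝓞 K₀)) (v : HeightOneSpectrum (𝓞 K)),
      v.asIdeal.comap (algebraMap (𝓞 K₀) (𝓞 K)) = v₀.asIdeal → MultSystem.IsDeg1 S v →
      eigen (((V j).frob v₀).map (Int.castRingHom (AlgebraicClosure K))) *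
          eigen (((B j).frob v).map (Int.castRingHom (AlgebraicClosure K))) +
          eigen (((C j).frob v).map (Int.castRingHom (AlgebraicClosure K))) =
        MvPolynomial.eval₂ (Nat.castRingHom _) (fun x => eigen ((A x.1).poly v x.2)) (Φ j))
    (hhodge : ∀ j : J, hodge (V j).slopes * hodge (B j).slopes + hodge (C j).slopes =
      MvPolynomial.eval₂ (Nat.castRingHom _) (fun x => hodge ((A x.1).h x.2 : Multiset ℕ)) (Φ j)) :
    0 < lowerDensity fun v₀ : HeightOneSpectrum (𝓞 K₀) => ∀ j, (V j).Ordinary v₀ := by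
  refine lower_down A χ S hA hγ _ ?_
  intro v v₀ hv hclean h0 j
  obtain ⟨Q, hQ, hno⟩ := hclean
  have hnorm := under_norm v hv.1 v₀ h0
  have hv₀ : MultSystem.IsDeg1 S v₀ := by
    unfold MultSystem.IsDeg1
    rw [hnorm]
    exact hv
  have hV := (V j).above v₀ hv₀
  rw [hnorm] at hV
  have key := local_ordinary hA hv hQ hno _ _ _ _ _ _ hV ((B j).above v hv) ((C j).above v hv) (hB j)
    (Φ j) (hfrob j v₀ v h0 hv) (hhodge j)
  rw [← hnorm] at key
  have hkey := key
  obtain ⟨hp, -⟩ := key
  refine ⟨Ideal.absNorm v₀.asIdeal, hp, rfl, ?_⟩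
  intro ℓ' _ hne γ hγ' τ
  exact newtonTau_of _ τ _ ((V j).frob v₀) ((V j).compat ℓ' v₀ hv₀ hne γ hγ') hkey

end Pool.Agent.Results.MP_db07cb_ag.TensorFactors
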