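import Pool.Agent.Y101.Ds.Ord
import Pool.Agent.Y101.Ds.IhDefs

/-!
# Ordinary primes for intersection cohomology and trilinear forms
-/

set_option autoImplicit false

open CategoryTheory AlgebraicGeometry NumberField IsDedekindDomain
open Pool.Agent.Y116.UV Pool.Agent.Y101.Th Pool.Agent.Y101.Ds

namespace Pool.Agent.Results.MP_db07cb_ag.TrilinearForms

/-- The smooth affine cubic hypersurfaces `t(x, y, z) = 1` for the trilinear forms `t` over `k` one of
whose three blocks of variables has at most `m` variables. -/
def Cubic (k : Type) [Field k] (m : ℕ) (X : Sch k) : Prop :=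
  ∃ (a b c : ℕ) (t : Fin a → Fin b → Fin c → k), (a ≤ m ∨ b ≤ m ∨ c ≤ m) ∧ X = hypS t

/-- The hypersurfaces `t(x, y, z) = 1` for the trilinear forms `t` with coefficients `0` and `1` (given
by the set `H` of the indices of the coefficients `1`). -/
def ZeroOne (k : Type) [Field k] (X : Sch k) : Prop :=
  ∃ (a b c : ℕ) (H : Finset (Fin a × Fin b × Fin c)), X = tripS k H

/-- **Ordinary primes for intersection cohomology and trilinear forms.** Let `k` be a number field.
The intersection cohomology group `IH^n(X)` has infinitely many ordinary places for every projective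
variety `X` over `k` and every `n` if and only if, for every finite family of trilinear forms `t` over
`k`, the weight graded pieces of the cohomology with compact supports of all hypersurfaces
`t(x, y, z) = 1` of the family are simultaneously ordinary at infinitely many places. Over `ℚ` it is
enough to consider the forms with the coefficients `0` and `1`. For the projective varieties of
dimension at most `n` the forms with a block of at most `n + 2` variables are sufficient. -/
theorem result {k : Type} [Field k] [NumberField k]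
    (O : Sch k → Set (HeightOneSpectrum (𝓞 k))) (I : Sch k → ℤ → Set (HeightOneSpectrum (𝓞 k)))
    (hO : IsOrdinary O) (hI : IsIntersection O I) (hk : Pool.Agent.Y691.TU.Resolution k) :
    ((∀ X : Sch k, IsProjective X → ∀ n, (I X n).Infinite) ↔
      Jointly Set.Infinite O fun X => ∃ m, Cubic k m X) ∧
    ((∀ x : k, ∃ d m : ℤ, IsUnit (d : k) ∧ (d : k) * x = m) →
      ((∀ X : Sch k, IsProjective X → ∀ n, (I X n).Infinite) ↔
        Jointly Set.Infinite O (ZeroOne k))) ∧
    ∀ d : ℕ, Jointly Set.Infinite O (Cubic k (d + 2)) →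
      ∀ X : Sch k, IsProjective X → topologicalKrullDim X.left ≤ d → ∀ n, (I X n).Infinite := by
  have hL : IsLargeness (Set.Infinite : Set (HeightOneSpectrum (𝓞 k)) → Prop) := by
    intro S S' h hS hS'
    refine hS ((Set.Finite.union h hS').subset ?_)
    intro v hv
    by_cases h' : v ∈ S'
    · exact Or.inr h'
    · exact Or.inl ⟨hv, h'⟩
  have hPC : ∀ (n : ℕ) (X : Sch k), SmProj X → topologicalKrullDim X.left ≤ n →
      Controlled O (Cubic k (n + 2)) X := by
    intro n X hX hd
    exact (gen_dim (bnd_controlled hO _) n).mpr (fun a b c t ht =>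
      controlled_self ⟨a, b, c, t, ht, rfl⟩) X hX.ft hd
  have hall : ∀ (n : ℕ) (X : Sch k), FT True X → topologicalKrullDim X.left ≤ n →
      Controlled O SmProj X := fun n =>
    Pool.Agent.Y691.TU.of_smproj hk (bnd_controlled hO _) n fun X hX hd => controlled_self hX
  have hCS : ∀ X : Sch k, (∃ m, Cubic k m X) → Controlled O SmProj X := by
    rintro X ⟨m, a, b, c, t, ht, rfl⟩
    exact (gen_dim (bnd_controlled hO _) m).mp (hall m) a b c t (by omega)
  have hSC : ∀ X : Sch k, SmProj X → Controlled O (fun X => ∃ m, Cubic k m X) X := by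
    intro X hX
    exact (gen_all (bnd_controlled hO _).toUni).mpr (fun a b c t =>
      controlled_self ⟨a, a, b, c, t, Or.inl le_rfl, rfl⟩) X hX.ft
  have hZC : ∀ X : Sch k, ZeroOne k X → ∃ m, Cubic k m X := by
    rintro X ⟨a, b, c, H, rfl⟩
    classical
    refine ⟨a, a, b, c, fun i j l => if (i, j, l) ∈ H then 1 else 0, Or.inl le_rfl, ?_⟩
    unfold hypS tripS Trip
    rw [← tri_ind]
  have hJ : (∀ X : Sch k, IsProjective X → ∀ n, (I X n).Infinite) ↔
      Jointly Set.Infinite O SmProj := by
    rw [← jointly_smproj hO hL]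
    constructor
    · intro h X hX
      obtain ⟨Z, m, hZ, hs⟩ := hI.single X hX
      exact hL _ _ hs (h Z hZ.projective m)
    · intro h X hX n
      obtain ⟨Y, hY, -, hs⟩ := hI.resolution X hX
      exact hL _ _ (hs n) (h Y hY)
  refine ⟨hJ.trans ⟨jointly_of hL hCS, jointly_of hL hSC⟩,
    fun hf => hJ.trans ⟨jointly_of hL fun X hX => hCS X (hZC X hX), jointly_of hL ?_⟩, ?_⟩
  · intro X hX
    exact Pool.Agent.Z125.UN.universal_frac hf (bnd_controlled hO _).toUni (fun a b c H =>
      controlled_self ⟨a, b, c, H, rfl⟩) X hX.ft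
  · intro d h X hX hd n
    obtain ⟨Y, hY, hYd, hs⟩ := hI.resolution X hX
    obtain ⟨l, hl, hs'⟩ := hPC d Y hY (hYd.trans hd)
    exact hL _ _ (hs'.trans (hs n)) (h l hl)

end Pool.Agent.Results.MP_db07cb_ag.TrilinearForms
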